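import Pool.Agent.H11.PT3
import Pool.Agent.H25.DualDefs

set_option autoImplicit false

namespace Pool.Agent.Results.MP_959b39_lc.W1Hard
open Pool.Agent.H11.PT Pool.Agent.H25.FP Pool.Agent.H25.Dual

abbrev X := (ℕ × List (ℕ × ℕ)) × ℕ

def R (x : X) (i j a b : ℕ) : Bool :=
  decide (a < x.1.1) && decide (b < x.1.1) &&
    (bif i == j then a == b else a != b && (x.1.2.contains (a, b) || x.1.2.contains (b, a)))

def ex (x : X) (v : A) : Bool :=
  decide (v.1 < x.2) && decide (v.2.1 < x.2) && decide (v.2.2.1 < x.1.1 + 2) &&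
    decide (v.2.2.2.1 < x.1.1 + 2) && decide (2 ≤ v.2.2.2.2) && decide (v.2.2.2.2 ≤ x.2 * x.2 + 2) &&
      (v.2.2.2.2 == 2 || !R x v.1 v.2.1 v.2.2.1 v.2.2.2.1)

def s : A := (0, 0, 0, 0, 0)
def t : A := (0, 0, 0, 0, 1)

def vs (x : X) : List A :=
  s :: t :: (List.range x.2 ×ˢ List.range x.2 ×ˢ List.range (x.1.1 + 2) ×ˢ List.range (x.1.1 + 2) ×ˢ
    List.range (x.2 * x.2 + 3)).filter (ex x)

theorem mem_vs (x : X) (v : A) : v ∈ vs x ↔ v = s ∨ v = t ∨ ex x v = true := by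
  obtain ⟨i, j, a, b, r⟩ := v
  simp only [vs, List.mem_cons, List.mem_filter, List.mem_product, List.mem_range]
  refine or_congr_right (or_congr_right (and_iff_right_iff_imp.2 fun h => ?_))
  simp only [ex, Bool.and_eq_true, decide_eq_true_eq] at h
  omega

def bl (x : X) (u v : A) : Bool :=
  (u == s && ex x v && v.2.2.1 == 0 && v.2.2.2.1 == 0) ||
  (ex x u && v == t && u.2.2.1 == x.1.1 + 1 && u.2.2.2.1 == x.1.1 + 1) ||
  (ex x u && ex x v && u.1 == v.1 &&
    ((u.2.1 == v.2.1 && u.2.2.1 == v.2.2.1 && u.2.2.2.1 + 1 == v.2.2.2.1) ||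
      (u.2.2.1 + 1 == v.2.2.1 && u.2.2.2.1 == x.1.1 + 1 && v.2.2.2.1 == 0)))

def rd (x : X) (u v : A) : Bool :=
  (u == s && ex x v && v.2.2.1 == x.1.1 + 1 && v.2.2.2.1 == 0) ||
  (ex x u && v == t && u.2.2.1 == 0 && u.2.2.2.1 == x.1.1 + 1) ||
  (ex x u && ex x v && u.2.1 == v.2.1 &&
    ((u.1 == v.1 && u.2.2.2.1 == v.2.2.2.1 && u.2.2.1 == v.2.2.1 + 1) ||
      (u.2.2.2.1 + 1 == v.2.2.2.1 && u.2.2.1 == 0 && v.2.2.1 == x.1.1 + 1)))

def eds (x : X) (p : A → A → Bool) : List (A × A) := (vs x ×ˢ vs x).filter fun e => p e.1 e.2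

def red (x : X) : Inst := (vs x, eds x (bl x), eds x (rd x), s, t, x.2 * x.2)

theorem PT_red : PT red := by
  have h0 : PT fun p : X × A => ex p.1 p.2 := by unfold ex R; fun_prop
  have h1 : PT vs := by
    unfold vs
    exact PT.cons (by fun_prop) (PT.cons (by fun_prop) (PT.filter (by fun_prop) h0))
  have h2 : PT fun p : X × A × A => ex p.1 p.2.1 := h0.comp (g := fun p : X × A × A => (p.1, p.2.1))
    (by fun_prop)
  have h3 : PT fun p : X × A × A => ex p.1 p.2.2 := h0.comp (g := fun p : X × A × A => (p.1, p.2.2))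
    (by fun_prop)
  have h4 : PT fun p : X × A × A => bl p.1 p.2.1 p.2.2 := by unfold bl; fun_prop
  have h5 : PT fun p : X × A × A => rd p.1 p.2.1 p.2.2 := by unfold rd; fun_prop
  unfold red eds
  exact h1.pair ((PT.filter (h1.product h1) h4).pair ((PT.filter (h1.product h1) h5).pair
    (by fun_prop)))

theorem ex_s (x : X) : ex x s = false := by simp [ex, s]
theorem ex_t (x : X) : ex x t = false := by simp [ex, t]

theorem ex_lt {x : X} {v : A} (h : ex x v = true) : v.1 < x.2 ∧ v.2.1 < x.2 ∧ v.2.2.1 < x.1.1 + 2 ∧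
    v.2.2.2.1 < x.1.1 + 2 ∧ 2 ≤ v.2.2.2.2 ∧
      (R x v.1 v.2.1 v.2.2.1 v.2.2.2.1 = true → v.2.2.2.2 = 2) := by
  simp only [ex, Bool.and_eq_true, decide_eq_true_eq, Bool.or_eq_true, beq_iff_eq,
    Bool.not_eq_true'] at h
  refine ⟨h.1.1.1.1.1.1, h.1.1.1.1.1.2, h.1.1.1.1.2, h.1.1.1.2, h.1.1.2, fun g => ?_⟩
  exact h.2.resolve_right (by simp [g])

theorem adj_iff (x : X) (p : A → A → Bool) (hp : ∀ u v, p u v = true → u ∈ vs x ∧ v ∈ vs x)
    (u v : A) : (G (eds x p)).Adj u v ↔ u ≠ v ∧ (p u v = true ∨ p v u = true) := by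
  simp only [G, SimpleGraph.fromRel_adj, eds, List.mem_filter, List.mem_product]
  have := hp u v
  have := hp v u
  tauto

theorem bl_vs (x : X) (u v : A) (h : bl x u v = true) : u ∈ vs x ∧ v ∈ vs x := by
  simp only [bl, Bool.or_eq_true, Bool.and_eq_true, beq_iff_eq] at h
  simp only [mem_vs]; tauto

theorem rd_vs (x : X) (u v : A) (h : rd x u v = true) : u ∈ vs x ∧ v ∈ vs x := by
  simp only [rd, Bool.or_eq_true, Bool.and_eq_true, beq_iff_eq] at h
  simp only [mem_vs]; tauto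

theorem valid (x : X) : Valid (red x) := by
  refine ⟨fun e he => ?_, fun u v h => ?_, by simp [red, vs], by simp [red, vs], by simp [red, s, t]⟩
  · simp only [red, eds, List.mem_append, List.mem_filter] at he
    obtain ⟨a, b⟩ := e
    rcases he with h | h <;> exact List.mem_product.1 h.1
  · simp only [red, adj_iff x _ (bl_vs x), adj_iff x _ (rd_vs x)] at h
    have h1 := ex_s x
    have h2 := ex_t x
    have h3 : s ≠ t := by simp [s, t]
    have h4 := @ex_lt x u
    have h5 := @ex_lt x v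
    simp only [bl, rd, Bool.or_eq_true, Bool.and_eq_true, beq_iff_eq] at h
    obtain ⟨⟨_, h6⟩, _, h7⟩ := h
    rcases h6 with ((h6 | h6) | h6) | ((h6 | h6) | h6) <;>
      rcases h7 with ((h7 | h7) | h7) | ((h7 | h7) | h7) <;>
      first | omega | (simp_all; done) | (have := h4 (by tauto); have := h5 (by tauto); omega)

theorem sep_of (H : SimpleGraph A) (S : Finset A) (hs : s ∉ S) (ht : t ∉ S) (L : A → Prop)
    (h1 : L s) (h2 : ¬ L t) (h : ∀ u v, u ∉ S → v ∉ S → H.Adj u v → L u → L v) : Sep H S s t := by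
  refine ⟨hs, ht, fun r => h2 ?_⟩
  rw [SimpleGraph.reachable_iff_reflTransGen] at r
  have : ∀ v : {v | v ∉ S}, Relation.ReflTransGen (H.induce {v | v ∉ S}).Adj ⟨s, hs⟩ v → L v := by
    intro v r
    induction r with
    | refl => exact h1
    | @tail b c _ a ih => exact h b.1 c.1 b.2 c.2 a ih
  exact this _ r

theorem chain {H : SimpleGraph A} {S : Finset A} (h : Sep H S s t) (m : ℕ) (w : ℕ → A)
    (hw : ∀ i ≤ m, w i ∉ S) (h0 : H.Adj s (w 0)) (h1 : ∀ i < m, H.Adj (w i) (w (i + 1)))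
    (h2 : H.Adj (w m) t) : False := by
  obtain ⟨hs, ht, h⟩ := h
  have : ∀ i (hi : i ≤ m), (H.induce {v | v ∉ S}).Reachable ⟨s, hs⟩ ⟨w i, hw i hi⟩ := by
    intro i
    induction i with
    | zero => intro _; exact SimpleGraph.Adj.reachable h0
    | succ i ih =>
      intro hi
      exact (ih (by omega)).trans (SimpleGraph.Adj.reachable (h1 i (by omega)))
  exact h ((this m le_rfl).trans (SimpleGraph.Adj.reachable h2))

theorem alive (x : X) (S : Finset A) (hS : S.card ≤ x.2 * x.2) {i j a b : ℕ} (hi : i < x.2)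
    (hj : j < x.2) (ha : a < x.1.1 + 2) (hb : b < x.1.1 + 2)
    (h : ¬ (R x i j a b = true ∧ (i, j, a, b, 2) ∈ S)) :
    ∃ r, ex x (i, j, a, b, r) = true ∧ (i, j, a, b, r) ∉ S := by
  cases hR : R x i j a b
  · by_contra hc
    push Not at hc
    have := Finset.card_le_card_of_injOn (s := Finset.range (x.2 * x.2 + 1)) (t := S)
      (fun r => (i, j, a, b, r + 2)) (fun r hr => hc _ (by
        have : r < x.2 * x.2 + 1 := by simpa using hr
        simp [ex, hi, hj, ha, hb, hR]; omega)) (fun r _ r' _ e => by simpa using e)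
    simp at this; omega
  · exact ⟨2, by simp [ex, hi, hj, ha, hb], fun g => h ⟨hR, g⟩⟩

theorem divmod (N p : ℕ) (hN : 0 < N) : ((p + 1) / N = p / N ∧ (p + 1) % N = p % N + 1) ∨
    ((p + 1) / N = p / N + 1 ∧ p % N = N - 1 ∧ (p + 1) % N = 0) := by
  have h1 := Nat.mod_lt p hN
  have h2 := Nat.div_add_mod p N
  by_cases h : p % N + 1 < N
  · left
    have e : p + 1 = N * (p / N) + (p % N + 1) := by omega
    rw [e, Nat.mul_add_div hN, Nat.div_eq_of_lt h, Nat.mul_add_mod, Nat.mod_eq_of_lt h]; simp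
  · right
    have e : p + 1 = N * (p / N + 1) := by rw [mul_add]; omega
    rw [e, Nat.mul_div_cancel_left _ hN, Nat.mul_mod_right]; omega

theorem last (n : ℕ) : ((n + 2) * (n + 1) + (n + 1)) / (n + 2) = n + 1 ∧
    ((n + 2) * (n + 1) + (n + 1)) % (n + 2) = n + 1 := by
  rw [Nat.mul_add_div (by omega), Nat.div_eq_of_lt (by omega), Nat.mul_add_mod,
    Nat.mod_eq_of_lt (by omega)]; simp

theorem div_lt {n p : ℕ} (h : p ≤ (n + 2) * (n + 1) + (n + 1)) : p / (n + 2) < n + 2 := by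
  have := Nat.div_le_div_right (c := n + 2) h
  rw [(last n).1] at this; omega

theorem blue (x : X) (S : Finset A) (hS : S.card ≤ x.2 * x.2) (h : Sep (G (eds x (bl x))) S s t)
    (i : ℕ) (hi : i < x.2) : ∃ a, ∀ j < x.2, ∃ b, R x i j a b = true ∧ (i, j, a, b, 2) ∈ S := by
  by_contra hc
  push Not at hc
  choose J hJ hJ' using hc
  have k : ∀ p, ∃ r, p / (x.1.1 + 2) < x.1.1 + 2 → ex x (i, J (p / (x.1.1 + 2)), p / (x.1.1 + 2),
      p % (x.1.1 + 2), r) = true ∧ (i, J (p / (x.1.1 + 2)), p / (x.1.1 + 2), p % (x.1.1 + 2), r) ∉ S := by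
    intro p
    by_cases hp : p / (x.1.1 + 2) < x.1.1 + 2
    · obtain ⟨r, hr⟩ := alive x S hS hi (hJ _) hp (Nat.mod_lt p (by omega)) fun g => hJ' _ _ g.1 g.2
      exact ⟨r, fun _ => hr⟩
    · exact ⟨0, fun g => absurd g hp⟩
  choose r hr using k
  refine chain h ((x.1.1 + 2) * (x.1.1 + 1) + (x.1.1 + 1))
    (fun p => (i, J (p / (x.1.1 + 2)), p / (x.1.1 + 2), p % (x.1.1 + 2), r p))
    (fun p hp => (hr p (div_lt hp)).2) ?_ (fun p hp => ?_) ?_
  · have := (hr 0 (div_lt (Nat.zero_le _))).1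
    rw [adj_iff x _ (bl_vs x)]
    refine ⟨fun e => by rw [← e, ex_s] at this; simp at this, Or.inl ?_⟩
    simp only [bl, this]; simp
  · have h1 := (hr p (div_lt hp.le)).1
    have h2 := (hr (p + 1) (div_lt hp)).1
    rw [adj_iff x _ (bl_vs x)]
    have := divmod (x.1.1 + 2) p (by omega)
    refine ⟨fun e => by simp only [Prod.mk.injEq] at e; omega, Or.inl ?_⟩
    simp only [bl, h1, h2, Bool.or_eq_true, Bool.and_eq_true, beq_iff_eq, true_and]
    refine Or.inr ?_
    rcases this with g | g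
    · exact Or.inl ⟨⟨by rw [g.1], g.1.symm⟩, g.2.symm⟩
    · exact Or.inr ⟨⟨g.1.symm, g.2.1⟩, g.2.2⟩
  · have := (hr _ (div_lt le_rfl)).1
    rw [adj_iff x _ (bl_vs x)]
    refine ⟨fun e => by rw [e, ex_t] at this; simp at this, Or.inl ?_⟩
    simp only [bl, this]; simp [last]

theorem redd (x : X) (S : Finset A) (hS : S.card ≤ x.2 * x.2) (h : Sep (G (eds x (rd x))) S s t)
    (j : ℕ) (hj : j < x.2) : ∃ b, ∀ i < x.2, ∃ a, R x i j a b = true ∧ (i, j, a, b, 2) ∈ S := by
  by_contra hc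
  push Not at hc
  choose J hJ hJ' using hc
  have k : ∀ p, ∃ r, p / (x.1.1 + 2) < x.1.1 + 2 → ex x (J (p / (x.1.1 + 2)), j,
      x.1.1 + 1 - p % (x.1.1 + 2), p / (x.1.1 + 2), r) = true ∧
        (J (p / (x.1.1 + 2)), j, x.1.1 + 1 - p % (x.1.1 + 2), p / (x.1.1 + 2), r) ∉ S := by
    intro p
    by_cases hp : p / (x.1.1 + 2) < x.1.1 + 2
    · obtain ⟨r, hr⟩ := alive x S hS (hJ _) hj (a := x.1.1 + 1 - p % (x.1.1 + 2)) (by omega) hp
        fun g => hJ' _ _ g.1 g.2
      exact ⟨r, fun _ => hr⟩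
    · exact ⟨0, fun g => absurd g hp⟩
  choose r hr using k
  refine chain h ((x.1.1 + 2) * (x.1.1 + 1) + (x.1.1 + 1))
    (fun p => (J (p / (x.1.1 + 2)), j, x.1.1 + 1 - p % (x.1.1 + 2), p / (x.1.1 + 2), r p))
    (fun p hp => (hr p (div_lt hp)).2) ?_ (fun p hp => ?_) ?_
  · have := (hr 0 (div_lt (Nat.zero_le _))).1
    rw [adj_iff x _ (rd_vs x)]
    refine ⟨fun e => by rw [← e, ex_s] at this; simp at this, Or.inl ?_⟩
    simp only [rd, this]; simp
  · have h1 := (hr p (div_lt hp.le)).1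
    have h2 := (hr (p + 1) (div_lt hp)).1
    rw [adj_iff x _ (rd_vs x)]
    have := divmod (x.1.1 + 2) p (by omega)
    have h3 := Nat.mod_lt (p + 1) (show x.1.1 + 2 > 0 by omega)
    refine ⟨fun e => by simp only [Prod.mk.injEq] at e; omega, Or.inl ?_⟩
    simp only [rd, h1, h2, Bool.or_eq_true, Bool.and_eq_true, beq_iff_eq, true_and]
    refine Or.inr ?_
    rcases this with g | g
    · exact Or.inl ⟨⟨by rw [g.1], g.1.symm⟩, by omega⟩
    · exact Or.inr ⟨⟨g.1.symm, by omega⟩, by omega⟩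
  · have := (hr _ (div_lt le_rfl)).1
    rw [adj_iff x _ (rd_vs x)]
    refine ⟨fun e => by rw [e, ex_t] at this; simp at this, Or.inl ?_⟩
    simp only [rd, this]; simp [last]

theorem clique_iff (x : X) :
    CLIQUE x ↔ ∃ a b : ℕ → ℕ, ∀ i < x.2, ∀ j < x.2, R x i j (a i) (b j) = true := by
  constructor
  · rintro ⟨S, hc, hn⟩
    let e := (S.orderIsoOfFin hn)
    let a : ℕ → ℕ := fun i => if h : i < x.2 then (e ⟨i, h⟩).1.1 else 0
    refine ⟨a, a, fun i hi j hj => ?_⟩
    simp only [R, a, hi, hj, dite_true, Fin.is_lt, decide_true, Bool.true_and]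
    by_cases h : i = j
    · subst h; simp
    · have h1 : (e ⟨i, hi⟩).1 ≠ (e ⟨j, hj⟩).1 := fun g => h (by
        simpa using e.injective (Subtype.ext g))
      have h2 := hc (e ⟨i, hi⟩).2 (e ⟨j, hj⟩).2 h1
      simp only [gr, SimpleGraph.fromRel_adj] at h2
      simpa [beq_eq_false_iff_ne.2 h, Fin.val_inj] using h2
  · rintro ⟨a, b, h⟩
    have h1 : ∀ i < x.2, a i < x.1.1 ∧ a i = b i := fun i hi => by
      have := h i hi i hi
      simp [R] at this; tauto
    have h2 : ∀ i < x.2, ∀ j < x.2, i ≠ j → a i ≠ a j ∧ ((a i, a j) ∈ x.1.2 ∨ (a j, a i) ∈ x.1.2) :=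
      fun i hi j hj hij => by
        have := h i hi j hj
        rw [← (h1 j hj).2] at this
        simp [R, beq_eq_false_iff_ne.2 hij] at this; tauto
    let f : Fin x.2 → Fin x.1.1 := fun i => ⟨a i, (h1 i i.2).1⟩
    have hf : Function.Injective f := fun i j e => by
      by_contra hn
      exact (h2 i i.2 j j.2 (by simpa [Fin.val_inj] using hn)).1 (congrArg Fin.val e)
    refine ⟨Finset.univ.image f, ?_, by simp [Finset.card_image_of_injective _ hf]⟩
    intro u hu v hv huv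
    obtain ⟨i, _, rfl⟩ := Finset.mem_image.1 hu
    obtain ⟨j, _, rfl⟩ := Finset.mem_image.1 hv
    simp only [gr, SimpleGraph.fromRel_adj]
    exact ⟨huv, (h2 i i.2 j j.2 fun e => huv (by rw [Fin.ext e])).2⟩

/-- Dual Separator for Two Terminals is W[1]-hard with parameter `k`. -/
theorem result : W1Hard DS2 fun I => I.2.2.2.2.2 := by
  refine ⟨red, fun k => k * k, PT_red.polyTime,
    (Primrec.nat_mul.comp Primrec.id Primrec.id).to_comp, fun x => ⟨?_, le_rfl⟩⟩
  rw [clique_iff]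
  let F : (ℕ → ℕ) → (ℕ → ℕ → ℕ) → ℕ × ℕ → A := fun a b p => (p.1, p.2, a p.1, b p.1 p.2, 2)
  have hF : ∀ a b, Function.Injective (F a b) := fun a b p q e => by
    simp only [F, Prod.mk.injEq] at e; exact Prod.ext e.1 e.2.1
  constructor
  · rintro ⟨a, b, h⟩
    let S := (Finset.range x.2 ×ˢ Finset.range x.2).image (F a fun _ j => b j)
    have hm : ∀ v, v ∈ S ↔ v.1 < x.2 ∧ v.2.1 < x.2 ∧ v.2.2.1 = a v.1 ∧ v.2.2.2.1 = b v.2.1 ∧
        v.2.2.2.2 = 2 := by
      rintro ⟨i, j, c, d, r⟩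
      simp only [S, F, Finset.mem_image, Finset.mem_product, Finset.mem_range, Prod.mk.injEq,
        Prod.exists]
      constructor
      · rintro ⟨_, _, h, rfl, rfl, rfl, rfl, rfl⟩; exact ⟨h.1, h.2, rfl, rfl, rfl⟩
      · rintro ⟨h1, h2, rfl, rfl, rfl⟩; exact ⟨_, _, ⟨h1, h2⟩, rfl, rfl, rfl, rfl, rfl⟩
    have hlt : ∀ i < x.2, ∀ j < x.2, a i < x.1.1 ∧ b j < x.1.1 := fun i hi j hj => by
      have := h i hi j hj
      simp only [R, Bool.and_eq_true, decide_eq_true_eq] at this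
      exact this.1
    have hout : ∀ v, v ∉ S → ex x v = true → v ≠ s ∧ v ≠ t ∧ a v.1 < x.1.1 ∧ b v.2.1 < x.1.1 ∧
        v.2.2.1 < x.1.1 + 2 ∧ v.2.2.2.1 < x.1.1 + 2 ∧ ¬ (v.2.2.1 = a v.1 ∧ v.2.2.2.1 = b v.2.1) := by
      intro v hv he
      obtain ⟨e1, e2, e3, e4, _, e6⟩ := ex_lt he
      refine ⟨fun e => by rw [e, ex_s] at he; simp at he, fun e => by rw [e, ex_t] at he; simp at he,
        (hlt _ e1 _ e2).1, (hlt _ e1 _ e2).2, e3, e4, fun g => hv ((hm v).2
          ⟨e1, e2, g.1, g.2, e6 (by rw [g.1, g.2]; exact h _ e1 _ e2)⟩)⟩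
    have hs : s ∉ S := by simp [hm, s]
    have ht : t ∉ S := by simp [hm, t]
    have st : s ≠ t := by simp [s, t]
    refine ⟨valid x, S, fun v hv => ?_, Finset.card_image_le.trans (by simp [red]), ?_, ?_⟩
    · obtain ⟨h1, h2, h3, h4, h5⟩ := (hm v).1 hv
      have := hlt _ h1 _ h2
      refine (mem_vs x v).2 (Or.inr (Or.inr ?_))
      simp only [ex, Bool.and_eq_true, decide_eq_true_eq, Bool.or_eq_true, beq_iff_eq]
      omega
    · refine sep_of _ S hs ht (fun v => v = s ∨ (v ≠ t ∧ (v.2.2.1 < a v.1 ∨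
        (v.2.2.1 = a v.1 ∧ v.2.2.2.1 < b v.2.1)))) (Or.inl rfl) (by simp [st.symm])
        fun u v hu hv g l => ?_
      simp only [red, adj_iff x _ (bl_vs x)] at g
      have h4 := hout u hu
      have h5 := hout v hv
      simp only [bl, Bool.or_eq_true, Bool.and_eq_true, beq_iff_eq] at g
      rcases g.2 with ((g | g) | g) | ((g | g) | g)
      · have := h5 g.1.1.2; exact Or.inr ⟨this.2.1, by omega⟩
      · have := h4 g.1.1.1; have := l.resolve_left this.1; omega
      · have a1 := h4 g.1.1.1; have a2 := h5 g.1.1.2; have := (l.resolve_left a1.1).2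
        refine Or.inr ⟨a2.2.1, ?_⟩
        rw [← g.1.2] at a2 ⊢
        rcases g.2 with g | g
        · rw [← g.1.1] at a2 ⊢; omega
        · omega
      · exact Or.inl g.1.1.1
      · rw [g.1.1.2] at l; simp [st.symm] at l
      · have a1 := h5 g.1.1.1; have a2 := h4 g.1.1.2; have := (l.resolve_left a2.1).2
        refine Or.inr ⟨a1.2.1, ?_⟩
        rw [← g.1.2] at a2 this
        rcases g.2 with g | g
        · rw [← g.1.1] at a2 this; omega
        · omega
    · refine sep_of _ S hs ht (fun v => v = s ∨ (v ≠ t ∧ (v.2.2.2.1 < b v.2.1 ∨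
        (v.2.2.2.1 = b v.2.1 ∧ a v.1 < v.2.2.1)))) (Or.inl rfl) (by simp [st.symm])
        fun u v hu hv g l => ?_
      simp only [red, adj_iff x _ (rd_vs x)] at g
      have h4 := hout u hu
      have h5 := hout v hv
      simp only [rd, Bool.or_eq_true, Bool.and_eq_true, beq_iff_eq] at g
      rcases g.2 with ((g | g) | g) | ((g | g) | g)
      · have := h5 g.1.1.2; exact Or.inr ⟨this.2.1, by omega⟩
      · have := h4 g.1.1.1; have := l.resolve_left this.1; omega
      · have a1 := h4 g.1.1.1; have a2 := h5 g.1.1.2; have := (l.resolve_left a1.1).2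
        refine Or.inr ⟨a2.2.1, ?_⟩
        rw [← g.1.2] at a2 ⊢
        rcases g.2 with g | g
        · rw [← g.1.1] at a2 ⊢; omega
        · omega
      · exact Or.inl g.1.1.1
      · rw [g.1.1.2] at l; simp [st.symm] at l
      · have a1 := h5 g.1.1.1; have a2 := h4 g.1.1.2; have := (l.resolve_left a2.1).2
        refine Or.inr ⟨a1.2.1, ?_⟩
        rw [← g.1.2] at a2 this
        rcases g.2 with g | g
        · rw [← g.1.1] at a2 this; omega
        · omega
  · rintro ⟨_, S, _, hS, h1, h2⟩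
    choose! a ha using blue x S hS h1
    choose! β hβ using ha
    choose! b hb using redd x S hS h2
    have hsub : (Finset.range x.2 ×ˢ Finset.range x.2).image (F a β) ⊆ S := by
      intro v hv
      obtain ⟨p, hp, rfl⟩ := Finset.mem_image.1 hv
      simp only [Finset.mem_product, Finset.mem_range] at hp
      exact (hβ _ hp.1 _ hp.2).2
    have heq := Finset.eq_of_subset_of_card_le hsub (by
      rw [Finset.card_image_of_injective _ (hF _ _)]; simpa [red] using hS)
    refine ⟨a, b, fun i hi j hj => ?_⟩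
    obtain ⟨c, h3, h4⟩ := hb j hj i hi
    rw [← heq] at h4
    obtain ⟨p, _, e⟩ := Finset.mem_image.1 h4
    simp only [F, Prod.mk.injEq] at e
    obtain ⟨rfl, rfl, rfl, _⟩ := e
    exact h3

end Pool.Agent.Results.MP_959b39_lc.W1Hard
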